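import Pool.Agent.MP_db5b97_nt.H85.Spec2

/-! Norm indices in a cyclic extension of prime degree. -/

namespace Pool.Agent.MP_db5b97_nt.H74

open NumberField IsDedekindDomain H85

section Gen

variable {G A B : Type} [Group G] [AddCommGroup A] [DistribMulAction G A] [AddCommGroup B]
  [DistribMulAction G B] {σ : G} {p : ℕ}

theorem Nm_Df (h : σ ^ p = 1) (x : A) : Nm σ p (Df σ x) = 0 := by
  rw [Nm_apply, Df_apply]
  simp only [smul_sub, ← mul_smul, ← pow_succ]
  rw [Finset.sum_range_sub (fun i => σ ^ i • x), h, pow_zero, sub_self]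

theorem Df_Nm (h : σ ^ p = 1) (x : A) : Df σ (Nm σ p x) = 0 := by
  rw [Nm_apply, Df_apply, Finset.smul_sum, ← Finset.sum_sub_distrib]
  simp only [← mul_smul, ← pow_succ']
  rw [Finset.sum_range_sub (fun i => σ ^ i • x), h, pow_zero, sub_self]

theorem map_Df (a : A →+ B) (h : ∀ (s : G) x, a (s • x) = s • a x) (x : A) :
    a (Df σ x) = Df σ (a x) := by
  rw [Df_apply, Df_apply, map_sub, h]

theorem map_Nm (a : A →+ B) (h : ∀ (s : G) x, a (s • x) = s • a x) (x : A) :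
    a (Nm σ p x) = Nm σ p (a x) := by
  simp only [Nm_apply, map_sum, h]

theorem Nm_mem {U : AddSubgroup A} (h : ∀ x ∈ U, σ • x ∈ U) {x : A} (hx : x ∈ U) :
    Nm σ p x ∈ U := by
  rw [Nm_apply]
  refine sum_mem fun i hi => ?_
  clear hi
  induction i with
  | zero => simpa using hx
  | succ i ih => rw [pow_succ', mul_smul]; exact h _ ih

theorem fix_iff (hp : p.Prime) (hG : Nat.card G = p) (hσ : σ ≠ 1) (x : A) :
    (∀ s : G, s • x = x) ↔ x ∈ (Df σ).ker := by
  have := Fact.mk hp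
  rw [AddMonoidHom.mem_ker, Df_apply, sub_eq_zero]
  refine ⟨fun h => h σ, fun h s => ?_⟩
  exact (Subgroup.zpowers_le_of_mem (show σ ∈ MulAction.stabilizer G x from h))
    (mem_zpowers_of_prime_card hG hσ)

theorem ker_le_range (h : H1z A p ⊥ σ) : (Nm σ p : A →+ A).ker ≤ (Df σ).range := fun x hx => by
  obtain ⟨y, -, e⟩ := h x (fun s hs => by rw [Subgroup.mem_bot.1 hs, one_smul]) hx
  exact ⟨y, e.symm⟩

end Gen

theorem idx_map {A B : Type} [AddCommGroup A] [AddCommGroup B] {φ : A →+ B}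
    (hφ : Function.Injective φ) (H : AddSubgroup A) : (H.map φ).relIndex φ.range = H.index := by
  rw [AddMonoidHom.range_eq_map, AddSubgroup.relIndex_map_map_of_injective _ _ hφ,
    AddSubgroup.relIndex_top_right]

theorem rowLAY : RowNT1 → RowNT2 → RowHQ → RowLA → RowUQ → RowU → RowSI → RowLAY := by
  intro h1 h2 hHQ hLA hUQ hU hSI p hp k F G _ _ _ _ _ _ _ _ σ l hG hσ hl hi hun
  have l0 : l ≠ 0 := by omega
  have : Finite G := Nat.finite_of_card_ne_zero (hG ▸ hp.ne_zero)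
  have : FaithfulSMul G F := IsGaloisGroup.faithful k
  have hs : σ ^ p = 1 := hG ▸ pow_card_eq_one'
  have hn : σ ∈ Subgroup.normalizer ((⊥ : Subgroup G) : Set G) :=
    Subgroup.le_normalizer_of_normal (K := ⊤) trivial
  have hb : σ ^ p ∈ (⊥ : Subgroup G) := hs
  obtain ⟨U, u1, u2, ⟨M0, u3⟩, u4, u5⟩ := hU p hp k F G σ l hG hσ hl
  have ea : ∀ (s : G) x, dv F l (s • x) = s • dv F l x := fun s x => by
    ext w
    rw [Finsupp.comapSMul_apply, dv_apply, dv_apply, show (s⁻¹ • w).1 = s⁻¹ • w.1 from rfl,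
      ← h2.ord_smul F G s (s⁻¹ • w.1) x, smul_inv_smul]
  have eb : ∀ (s : G) x, dvl F l (s • x) = s • dvl F l x := fun s x => by
    ext w
    rw [Finsupp.comapSMul_apply, dvl_apply, dvl_apply, show (s⁻¹ • w).1 = s⁻¹ • w.1 from rfl,
      ← h2.ord_smul F G s (s⁻¹ • w.1) x, smul_inv_smul]
  have kb : (dvl F l).ker = Ru F l := by
    ext x
    rw [mem_Ru_iff_ord, AddMonoidHom.mem_ker, Finsupp.ext_iff]
    rfl
  have kA : (Df σ).ker = (Un.inc k F).range := by
    ext x; rw [h2.inc_range k F G, fix_iff hp hG hσ]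
  have kI : (Df σ).ker = (con k F l).range := by
    ext x; rw [h2.con_range k F G, fix_iff hp hG hσ]
  have iA : Function.Injective (Un.inc k F) := fun x y h =>
    Un.ext ((algebraMap k F).injective (congrArg Un.val h))
  have iI : Function.Injective (con k F l) := fun x y h => by
    ext v
    obtain ⟨w, rfl⟩ := (h1.und_surj k F l).2 v
    exact DFunLike.congr_fun h w
  have di : ∀ x, dv F l (Un.inc k F x) = con k F l (dv k l x) := fun x => by
    ext w
    rw [dv_apply, h2.ord_inc, hun w, Nat.cast_one, one_mul]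
    rfl
  have nA := h2.inc_nrm k F G σ p hp hG hσ
  have nI : (con k F l).comp (nrD F l k) = Nm σ p := hom_ext fun x => by
    rw [AddMonoidHom.comp_apply, ← h1.dv_nrm, ← di, nA, map_Nm _ ea]
  have rA : (Nm σ p).range = (Un.nrm k F).range.map (Un.inc k F) := by
    rw [AddMonoidHom.map_range]
    exact congrArg _ (AddMonoidHom.ext nA).symm
  have rI : (Nm σ p).range = (nrD F l k).range.map (con k F l) := by
    rw [AddMonoidHom.map_range, nI]
  have hrel : U.relIndex (Ru F l) ≠ 0 := fun h =>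
    Ray_relIndex_ne l0 M0 (AddSubgroup.relIndex_eq_zero_of_le_left u3 h)
  obtain ⟨q1, q2⟩ := hUQ p hp k F G σ l (U ⊓ (dv F l).ker) hG hσ hi
    (fun x hx => ⟨u1 x hx.1, AddMonoidHom.mem_ker.2 (by
      rw [ea, AddMonoidHom.mem_ker.1 hx.2, smul_zero])⟩)
    (inf_le_inf_right _ u2) (AddSubgroup.relIndex_inter_ne_zero hrel _)
  refine ⟨M0, fun M hM => ?_⟩
  have eI : ((Nm σ p).range ⊔ ((Ray k l M).map (Un.inc k F)).map (dv F l)).relIndex (Df σ).ker =
      ((nrD F l k).range ⊔ (Ray k l M).map (dv k l)).index := by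
    rw [← idx_map iI, AddSubgroup.map_sup, ← rI, kI, AddSubgroup.map_map, AddSubgroup.map_map]
    congr 3
    exact AddMonoidHom.ext di
  have eA : ((Nm σ p).range ⊔ (Ray k l M).map (Un.inc k F)).relIndex (Df σ).ker =
      ((Un.nrm k F).range ⊔ Ray k l M).index := by
    rw [← idx_map iA, AddSubgroup.map_sup, ← rA, kA]
  have i0 : ((nrD F l k).range ⊔ (Ray k l M).map (dv k l)).index ≠ 0 :=
    ne_zero_of_dvd_ne_zero (Ray_index_ne l0 M) (AddSubgroup.index_dvd_of_le le_sup_right)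
  have i1 : ((nrD F l k).range ⊔ (Ray k l M).map (dv k l)).index ≤ p := by
    have : Finite (Dv k l ⧸ ((nrD F l k).range ⊔ (Ray k l M).map (dv k l))) :=
      Nat.finite_of_card_ne_zero i0
    rw [← hG, IsGaloisGroup.card_eq_finrank G k F]
    exact hSI k F l M _ (QuotientAddGroup.mk' _) hl (QuotientAddGroup.mk'_surjective _)
      (fun x hx => (QuotientAddGroup.eq_zero_iff _).2
        (AddSubgroup.mem_sup_right ⟨x, hx, rfl⟩))
      fun D => (QuotientAddGroup.eq_zero_iff _).2 (AddSubgroup.mem_sup_left ⟨D, rfl⟩)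
  obtain ⟨c1, c2, c3⟩ := hLA p (Un F) (Dv F l) (Pl F l →₀ ℤ) (Df σ) (Nm σ p) (Df σ) (Nm σ p)
    (Df σ) (Nm σ p) (dv F l) (dvl F l) U ((Ray k l M).map (Un.inc k F))
    (Df_Nm hs) (Nm_Df hs) (Df_Nm hs) (Nm_Df hs) (map_Df _ ea) (map_Nm _ ea) (map_Df _ eb)
    (map_Nm _ eb) (h1.dvl_surj F l l0) (fun x hx => sub_mem (u1 x hx) hx)
    (fun x hx => Nm_mem u1 hx) (u2.trans kb.ge) (by rw [kb]; exact hrel)
    (ne_zero_of_dvd_ne_zero (Ray_index_ne l0 M0)
      (AddSubgroup.index_dvd_of_le (AddSubgroup.map_mono u3)))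
    (ker_le_range (h2.h1u F G p ⊥ σ hp hn hb hσ))
    (ker_le_range (h2.h1p _ G p ⊥ σ hp.pos hn hb)) (ker_le_range (h2.h1p _ G p ⊥ σ hp.pos hn hb))
    (fun x hx => (u4 x hx.1 hx.2).imp fun y hy => ⟨hy.1, hy.2.symm⟩)
    (by
      rintro _ ⟨x, hx, rfl⟩
      exact ⟨u3 (Ray_anti hM ((h2.inc_Ray k F l M x).2 hx)), kA.ge ⟨x, rfl⟩⟩)
    (fun x hx => by
      obtain ⟨y, -, hy⟩ := u5 M x hx.1 (sub_eq_zero.1 hx.2)
      obtain ⟨z, hz⟩ := kA.le (sub_mem hx.2 (Df_Nm hs y))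
      rw [← add_sub_cancel (Nm σ p y) x]
      exact AddSubgroup.add_mem_sup ⟨y, rfl⟩ ⟨z, (h2.inc_Ray k F l M z).1 (by rw [hz]; exact hy), hz⟩)
    q1 q2 (eI.trans_ne i0) (eI.trans_le i1)
  refine ⟨fun x hx ⟨D, hD⟩ => ?_, eI.symm.trans c2, eA.symm.trans c3, ?_⟩
  · obtain ⟨y, hy⟩ := c1 _ ⟨x, hx, rfl⟩ ⟨D, by rw [di, ← hD, ← nI]; rfl⟩
    exact ⟨y, iA ((nA y).trans hy)⟩
  · have := Pl_finite (F := F) l0
    exact (hHQ p hp ℤ (Pl F l →₀ ℤ) G σ (LinearMap.ker (Df σ).toIntLinearMap)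
      ((Nat.card_congr (Int.quotientSpanNatEquivZMod p).toEquiv).trans (Nat.card_zmod p))
      (fun x => by rw [hs, one_smul]) fun x => sub_eq_zero).1

end Pool.Agent.MP_db5b97_nt.H74
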